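import Mathlib
import Pool.Agent.Helper91.BP.Pr

/-! Polluted transitive closure on Hamming graphs: definitions. -/

set_option autoImplicit false

namespace Pool.Agent.H500R3.Ham
open Finset Classical

/-- The vertex set `[n]^d`. -/
abbrev V (n d : ℕ) : Type := Fin d → Fin n

/-- The unordered pairs of distinct vertices which are not edges of the Hamming graph (two vertices
are joined in the Hamming graph when they differ in exactly one coordinate). -/
abbrev NonEdge (n d : ℕ) : Type :=
  {e : Sym2 (V n d) // ∀ x y : V n d, e = s(x, y) → x ≠ y ∧ hammingDist x y ≠ 1}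

/-- The pair `{x, y}` belongs to the set `O` of open pairs. -/
def IsOpen {n d : ℕ} (O : Finset (NonEdge n d)) (x y : V n d) : Prop :=
  ∃ e ∈ O, (e : Sym2 (V n d)) = s(x, y)

/-- The pair `{x, y}` belongs to `E_t`. -/
def Occ {n d : ℕ} (O : Finset (NonEdge n d)) : ℕ → V n d → V n d → Prop
  | 0, x, y => hammingDist x y = 1
  | (t + 1), x, y => Occ O t x y ∨ (IsOpen O x y ∧ ∃ z, Occ O t x z ∧ Occ O t z y)

/-- Every open pair is eventually occupied. -/
def Saturated {n d : ℕ} (O : Finset (NonEdge n d)) : Prop :=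
  ∀ x y : V n d, IsOpen O x y → ∃ t, Occ O t x y

/-- Probability of the event `F` when every non-edge is open with probability `p` independently. -/
noncomputable def prob (n d : ℕ) (p : ℝ) (F : Finset (NonEdge n d) → Prop) : ℝ :=
  ∑ O : Finset (NonEdge n d),
    if F O then p ^ O.card * (1 - p) ^ (Fintype.card (NonEdge n d) - O.card) else 0

/-- The critical density `p_c(n,d)`. -/
noncomputable def pc (n d : ℕ) : ℝ :=
  sInf {p : ℝ | 0 ≤ p ∧ p ≤ 1 ∧ ∀ p' : ℝ, p ≤ p' → p' ≤ 1 → 1 / 2 ≤ prob n d p' Saturated}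

variable {n d : ℕ}

theorem prob_eq (p : ℝ) (F : Finset (NonEdge n d) → Prop) :
    prob n d p F = Pool.Agent.Helper91.BP.Pr p F := by
  unfold prob Pool.Agent.Helper91.BP.Pr
  apply Finset.sum_congr rfl
  intro A _
  unfold Pool.Agent.Helper91.BP.wt
  rw [Finset.card_compl]

theorem Occ.mono_succ {O : Finset (NonEdge n d)} {t : ℕ} {x y : V n d} (h : Occ O t x y) :
    Occ O (t + 1) x y := Or.inl h

theorem Occ.mono {O : Finset (NonEdge n d)} {t t' : ℕ} (htt : t ≤ t') {x y : V n d}
    (h : Occ O t x y) : Occ O t' x y := by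
  induction htt with
  | refl => exact h
  | step _ ih => exact ih.mono_succ

theorem IsOpen.symm {O : Finset (NonEdge n d)} {x y : V n d} (h : IsOpen O x y) : IsOpen O y x := by
  obtain ⟨e, he, h2⟩ := h
  exact ⟨e, he, by rw [h2, Sym2.eq_swap]⟩

theorem Occ.symm {O : Finset (NonEdge n d)} {t : ℕ} : ∀ {x y : V n d}, Occ O t x y → Occ O t y x := by
  induction t with
  | zero =>
    intro x y h
    unfold Occ at h ⊢
    rw [hammingDist_comm]; exact h
  | succ t ih =>
    intro x y h
    rcases h with h | ⟨h, z, h1, h2⟩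
    · exact Or.inl (ih h)
    · exact Or.inr ⟨h.symm, z, ih h2, ih h1⟩

/-- eventually occupied -/
def Ev (O : Finset (NonEdge n d)) (x y : V n d) : Prop := ∃ t, Occ O t x y

theorem Ev.base {O : Finset (NonEdge n d)} {x y : V n d} (h : hammingDist x y = 1) : Ev O x y :=
  ⟨0, h⟩

theorem Ev.symm {O : Finset (NonEdge n d)} {x y : V n d} (h : Ev O x y) : Ev O y x := by
  obtain ⟨t, h⟩ := h
  exact ⟨t, h.symm⟩

theorem Ev.step {O : Finset (NonEdge n d)} {x y z : V n d} (h : IsOpen O x y) (h1 : Ev O x z)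
    (h2 : Ev O z y) : Ev O x y := by
  obtain ⟨t1, h1⟩ := h1
  obtain ⟨t2, h2⟩ := h2
  exact ⟨max t1 t2 + 1, Or.inr ⟨h, z, h1.mono (le_max_left _ _), h2.mono (le_max_right _ _)⟩⟩

theorem IsOpen.dist {O : Finset (NonEdge n d)} {x y : V n d} (h : IsOpen O x y) :
    2 ≤ hammingDist x y := by
  obtain ⟨e, _, he⟩ := h
  obtain ⟨h1, h2⟩ := e.2 x y he
  have : hammingDist x y ≠ 0 := by
    rw [Ne, hammingDist_eq_zero]; exact h1
  omega

/-- the slot of a pair at distance at least two -/
def slot (x y : V n d) (h : 2 ≤ hammingDist x y) : NonEdge n d :=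
  ⟨s(x, y), by
    intro a b hab
    rw [Sym2.eq_iff] at hab
    have hne : x ≠ y := by
      intro h2
      rw [h2, hammingDist_self] at h
      omega
    rcases hab with ⟨rfl, rfl⟩ | ⟨rfl, rfl⟩
    · exact ⟨hne, by omega⟩
    · refine ⟨hne.symm, ?_⟩
      rw [hammingDist_comm]; omega⟩

theorem isOpen_iff {O : Finset (NonEdge n d)} {x y : V n d} (h : 2 ≤ hammingDist x y) :
    IsOpen O x y ↔ slot x y h ∈ O := by
  constructor
  · rintro ⟨e, he, h2⟩
    have : slot x y h = e := Subtype.ext h2.symm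
    rw [this]; exact he
  · intro h2
    exact ⟨_, h2, rfl⟩

end Pool.Agent.H500R3.Ham
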