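import Pool.Agent.H500R3.Ham.Wit
import Pool.Agent.H500R3.Cube.Prob

/-! Lower bound for the critical density. -/

set_option autoImplicit false

namespace Pool.Agent.H500R3.Ham
open Finset Classical Pool.Agent.Helper91.BP Filter Topology

variable {n d : ℕ}

/-- the vertices with coordinates below `m` -/
def lo {m : ℕ} (hm : 2 * m ≤ n) (a : Fin d → Fin m) : V n d := fun i => ⟨(a i : ℕ), by
  have := (a i).2
  omega⟩

/-- the vertices with coordinates in `[m, 2m)` -/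
def hi {m : ℕ} (hm : 2 * m ≤ n) (a : Fin d → Fin m) : V n d := fun i => ⟨(a i : ℕ) + m, by
  have := (a i).2
  omega⟩

theorem lo_hi {m : ℕ} (hm : 2 * m ≤ n) (a b : Fin d → Fin m) (i : Fin d) : lo hm a i ≠ hi hm b i := by
  intro h
  have := congrArg Fin.val h
  unfold lo hi at this
  simp only at this
  have h2 := (a i).2
  omega

theorem dist_lo_hi {m : ℕ} (hm : 2 * m ≤ n) (a b : Fin d → Fin m) :
    hammingDist (lo hm a) (hi hm b) = d := by
  unfold hammingDist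
  rw [filter_true_of_mem]
  · simp
  · intro i _
    exact lo_hi hm a b i

/-- a large family of non-edges at distance `d` -/
noncomputable def T0 {m : ℕ} (hm : 2 * m ≤ n) (hd : 2 ≤ d) : Finset (NonEdge n d) :=
  (univ : Finset ((Fin d → Fin m) × (Fin d → Fin m))).image
    (fun ab => slot (lo hm ab.1) (hi hm ab.2) (by rw [dist_lo_hi]; exact hd))

theorem card_T0 {m : ℕ} (hm : 2 * m ≤ n) (hd : 2 ≤ d) : (T0 hm hd).card = m ^ (2 * d) := by
  unfold T0
  rw [card_image_of_injective]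
  · simp
    ring
  · rintro ⟨a, b⟩ ⟨a', b'⟩ h
    have h := congrArg Subtype.val h
    unfold slot at h
    simp only at h
    rw [Sym2.eq_iff] at h
    rcases h with ⟨h1, h2⟩ | ⟨h1, _⟩
    · have e1 : a = a' := by
        funext i
        have := congrArg Fin.val (congrFun h1 i)
        unfold lo at this
        exact Fin.ext this
      have e2 : b = b' := by
        funext i
        have := congrArg Fin.val (congrFun h2 i)
        unfold hi at this
        simp only at this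
        exact Fin.ext (by omega)
      rw [e1, e2]
    · exfalso
      exact lo_hi hm a b' ⟨0, by omega⟩ (congrFun h1 ⟨0, by omega⟩)

/-- the family of sets of size `k+1` -/
noncomputable def Gk (n d k : ℕ) : Finset (Finset (V n d)) := (G n d k).filter (fun S => S.card = k + 1)

/-- the number of small candidate sets with many non-edges in `O` -/
noncomputable def Ns (K : ℕ) (O : Finset (NonEdge n d)) : ℕ :=
  ∑ k ∈ Icc 3 (K - 1), ((Gk n d k).filter (fun S => k - 1 ≤ (O ∩ ins S).card)).card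

theorem bk {p : ℝ} (h0 : 0 ≤ p) (h1 : p ≤ 1) (k : ℕ) :
    ∑ S ∈ Gk n d k, Pr p (fun O : Finset (NonEdge n d) => k - 1 ≤ (O ∩ ins S).card) ≤
      (n : ℝ) ^ d * (((k : ℝ) + 1) * (d * n)) ^ k * (2 ^ ((k + 1) ^ 2) * p ^ (k - 1)) := by
  calc _ ≤ ∑ S ∈ Gk n d k, (2 : ℝ) ^ ((k + 1) ^ 2) * p ^ (k - 1) := by
        apply sum_le_sum
        intro S hS
        unfold Gk at hS
        exact many_open_prob h0 h1 S (mem_filter.1 hS).2
    _ = ((Gk n d k).card : ℝ) * (2 ^ ((k + 1) ^ 2) * p ^ (k - 1)) := by rw [sum_const, nsmul_eq_mul]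
    _ ≤ _ := by
        apply mul_le_mul_of_nonneg_right _ (by positivity)
        have h2 : (Gk n d k).card ≤ n ^ d * ((k + 1) * (d * n)) ^ k :=
          le_trans (card_le_card (filter_subset _ _)) (card_G k)
        exact_mod_cast h2

theorem mid_prob {p : ℝ} (h0 : 0 ≤ p) (h1 : p ≤ 1) (K : ℕ) :
    Pr p (fun O : Finset (NonEdge n d) => ∃ k ∈ Icc K (2 * K - 1), ∃ S ∈ Gk n d k,
      k - 1 ≤ (O ∩ ins S).card) ≤
      ∑ k ∈ Icc K (2 * K - 1),
        (n : ℝ) ^ d * (((k : ℝ) + 1) * (d * n)) ^ k * (2 ^ ((k + 1) ^ 2) * p ^ (k - 1)) := by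
  refine le_trans (Pr_bUnion_le h0 h1 _ _) ?_
  apply sum_le_sum
  intro k _
  exact le_trans (Pr_bUnion_le h0 h1 _ _) (bk h0 h1 k)

theorem ns_prob {p a : ℝ} (h0 : 0 ≤ p) (h1 : p ≤ 1) (K : ℕ) (ha : 0 < a) :
    Pr p (fun O : Finset (NonEdge n d) => a ≤ (Ns K O : ℝ)) ≤
      (∑ k ∈ Icc 3 (K - 1),
        (n : ℝ) ^ d * (((k : ℝ) + 1) * (d * n)) ^ k * (2 ^ ((k + 1) ^ 2) * p ^ (k - 1))) / a := by
  have h2 := Pr_le_sum h0 h1 (fun O : Finset (NonEdge n d) => a ≤ (Ns K O : ℝ))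
    (fun O => (Ns K O : ℝ) / a) (fun O => by positivity) (fun O hO => by
      rw [le_div_iff₀ ha]; linarith)
  refine le_trans h2 ?_
  have h3 : ∑ A : Finset (NonEdge n d), wt p A * ((Ns K A : ℝ) / a) =
      (∑ k ∈ Icc 3 (K - 1), ∑ S ∈ Gk n d k,
        Pr p (fun O : Finset (NonEdge n d) => k - 1 ≤ (O ∩ ins S).card)) / a := by
    have e1 : ∀ A : Finset (NonEdge n d), wt p A * ((Ns K A : ℝ) / a) =
        (∑ k ∈ Icc 3 (K - 1), ∑ S ∈ Gk n d k,
          if k - 1 ≤ (A ∩ ins S).card then wt p A else 0) / a := by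
      intro A
      unfold Ns
      rw [mul_div_assoc']
      congr 1
      push_cast
      rw [mul_sum]
      apply sum_congr rfl
      intro k _
      rw [card_filter]
      push_cast
      rw [mul_sum]
      apply sum_congr rfl
      intro S _
      split_ifs <;> simp
    simp_rw [e1]
    rw [← sum_div, sum_comm]
    congr 1
    apply sum_congr rfl
    intro k _
    rw [sum_comm]
    apply sum_congr rfl
    intro S _
    unfold Pr
    apply sum_congr rfl
    intro A _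
    split_ifs <;> rfl
  rw [h3]
  apply div_le_div_of_nonneg_right _ ha.le
  apply sum_le_sum
  intro k _
  exact bk h0 h1 k

theorem few_open_prob {p : ℝ} (h0 : 0 ≤ p) (h1 : p ≤ 1) (T : Finset (NonEdge n d)) :
    Pr p (fun O : Finset (NonEdge n d) => ((O ∩ T).card : ℝ) ≤ p * T.card / 2) ≤
      Real.exp (-(p * T.card / 10)) := by
  have h := Pool.Agent.H500R3.Cube.cheb h0 h1
    (fun O : Finset (NonEdge n d) => ((O ∩ T).card : ℝ) ≤ p * T.card / 2)
    (fun e => if e ∈ T then (-1 : ℝ) else 0) (-(p * T.card / 2)) (by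
      intro A hA
      have : ∑ z ∈ A, (if z ∈ T then (-1 : ℝ) else 0) = -((A ∩ T).card : ℝ) := by
        rw [← sum_filter, filter_mem_eq_inter]
        simp
      rw [this]
      linarith)
  refine le_trans h (Real.exp_le_exp.2 ?_)
  have h2 : ∑ z : NonEdge n d, (Real.exp (if z ∈ T then (-1 : ℝ) else 0) - 1) =
      (T.card : ℝ) * (Real.exp (-1) - 1) := by
    have : ∀ z : NonEdge n d, (Real.exp (if z ∈ T then (-1 : ℝ) else 0) - 1) =
        if z ∈ T then (Real.exp (-1) - 1) else 0 := by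
      intro z
      split_ifs <;> simp
    simp_rw [this]
    rw [← sum_filter, filter_mem_eq_inter, univ_inter, sum_const, nsmul_eq_mul]
  rw [h2]
  have h3 : Real.exp (-1) ≤ 2 / 5 := by
    rw [Real.exp_neg]
    have := Real.exp_one_gt_d9
    have h4 : (Real.exp 1)⁻¹ < (5 / 2 : ℝ)⁻¹ := inv_strictAnti₀ (by norm_num) (by linarith)
    norm_num at h4 ⊢
    linarith
  have hT : (0 : ℝ) ≤ T.card := Nat.cast_nonneg _
  nlinarith [mul_nonneg h0 hT]

/-- the deterministic decomposition -/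
theorem sat_cases {m : ℕ} (hm : 2 * m ≤ n) (hd : 3 ≤ d) {K : ℕ} (hK : 2 ≤ K)
    (O : Finset (NonEdge n d)) (hO : Saturated O) :
    (∃ k ∈ Icc K (2 * K - 1), ∃ S ∈ Gk n d k, k - 1 ≤ (O ∩ ins S).card) ∨
      (O ∩ T0 hm (by omega)).card ≤ K ^ 2 * Ns K O := by
  by_cases hmid : ∃ k ∈ Icc K (2 * K - 1), ∃ S ∈ Gk n d k, k - 1 ≤ (O ∩ ins S).card
  · exact Or.inl hmid
  right
  obtain ⟨Z, hZ⟩ := exists_apex O
  have key : O ∩ T0 hm (by omega : 2 ≤ d) ⊆
      (Icc 3 (K - 1)).biUnion (fun k =>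
        ((Gk n d k).filter (fun S => k - 1 ≤ (O ∩ ins S).card)).biUnion (fun S => ins S)) := by
    intro e he
    rw [mem_inter] at he
    obtain ⟨heO, heT⟩ := he
    unfold T0 at heT
    rw [mem_image] at heT
    obtain ⟨⟨a, b⟩, _, rfl⟩ := heT
    simp only at heO ⊢
    obtain ⟨t, ht⟩ := hO (lo hm a) (hi hm b) ⟨_, heO, rfl⟩
    rcases witness O Z hZ hK t _ _ ht with ⟨F, S, hW, hc⟩ | ⟨x', y', F, S, hW, hc1, hc2⟩
    · have hxS : lo hm a ∈ S := by rw [hW.1]; simp
      have hyS : hi hm b ∈ S := by rw [hW.1]; simp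
      have h4 := hW.2.2.1.card_ge hxS hyS
      rw [dist_lo_hi] at h4
      have hcount := hW.count
      obtain ⟨k, hk⟩ : ∃ k, S.card = k + 1 := ⟨S.card - 1, by omega⟩
      rw [mem_biUnion]
      refine ⟨k, mem_Icc.2 ⟨by omega, by omega⟩, ?_⟩
      rw [mem_biUnion]
      refine ⟨S, ?_, ?_⟩
      · rw [mem_filter]
        refine ⟨?_, by omega⟩
        unfold Gk
        rw [mem_filter]
        exact ⟨hW.2.2.1.mem_G hk, hk⟩
      · unfold ins
        rw [mem_filter]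
        refine ⟨mem_univ _, ?_⟩
        intro v hv
        unfold slot at hv
        simp only [Sym2.mem_iff] at hv
        rcases hv with rfl | rfl
        · exact hxS
        · exact hyS
    · exfalso
      apply hmid
      have hcount := hW.count
      obtain ⟨k, hk⟩ : ∃ k, S.card = k + 1 := ⟨S.card - 1, by omega⟩
      refine ⟨k, mem_Icc.2 ⟨by omega, by omega⟩, S, ?_, by omega⟩
      unfold Gk
      rw [mem_filter]
      exact ⟨hW.2.2.1.mem_G hk, hk⟩
  refine le_trans (card_le_card key) (le_trans card_biUnion_le ?_)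
  unfold Ns
  rw [mul_sum]
  apply sum_le_sum
  intro k hk
  refine le_trans card_biUnion_le ?_
  calc _ ≤ ∑ S ∈ (Gk n d k).filter (fun S => k - 1 ≤ (O ∩ ins S).card), K ^ 2 := by
        apply sum_le_sum
        intro S hS
        rw [mem_filter] at hS
        unfold Gk at hS
        have h5 := (mem_filter.1 hS.1).2
        refine le_trans (card_ins S) ?_
        apply Nat.pow_le_pow_left
        have := mem_Icc.1 hk
        omega
    _ = _ := by rw [sum_const, smul_eq_mul, mul_comm]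

/-- the bound for the probability of saturation -/
theorem sat_prob {m : ℕ} (hm : 2 * m ≤ n) (hm1 : 1 ≤ m) (hd : 3 ≤ d) {K : ℕ} (hK : 2 ≤ K) {p : ℝ}
    (h0 : 0 < p) (h1 : p ≤ 1) :
    Pr p (fun O : Finset (NonEdge n d) => Saturated O) ≤
      (∑ k ∈ Icc K (2 * K - 1),
        (n : ℝ) ^ d * (((k : ℝ) + 1) * (d * n)) ^ k * (2 ^ ((k + 1) ^ 2) * p ^ (k - 1))) +
      (Real.exp (-(p * (m : ℝ) ^ (2 * d) / 10)) +
      (∑ k ∈ Icc 3 (K - 1),
        (n : ℝ) ^ d * (((k : ℝ) + 1) * (d * n)) ^ k * (2 ^ ((k + 1) ^ 2) * p ^ (k - 1))) /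
          (p * (m : ℝ) ^ (2 * d) / (2 * K ^ 2))) := by
  have hm0 : (0 : ℝ) < m := by exact_mod_cast hm1
  have hK0 : (0 : ℝ) < K := by exact_mod_cast (by omega : 0 < K)
  have hT : ((T0 hm (by omega : 2 ≤ d)).card : ℝ) = (m : ℝ) ^ (2 * d) := by
    rw [card_T0]; push_cast; ring
  have key : ∀ O : Finset (NonEdge n d), Saturated O →
      (∃ k ∈ Icc K (2 * K - 1), ∃ S ∈ Gk n d k, k - 1 ≤ (O ∩ ins S).card) ∨
      (((O ∩ T0 hm (by omega : 2 ≤ d)).card : ℝ) ≤ p * (T0 hm (by omega : 2 ≤ d)).card / 2 ∨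
        p * (m : ℝ) ^ (2 * d) / (2 * K ^ 2) ≤ (Ns K O : ℝ)) := by
    intro O hO
    rcases sat_cases hm hd hK O hO with h | h
    · exact Or.inl h
    · right
      by_cases h2 : ((O ∩ T0 hm (by omega : 2 ≤ d)).card : ℝ) ≤ p * (T0 hm (by omega : 2 ≤ d)).card / 2
      · exact Or.inl h2
      · right
        push Not at h2
        rw [hT] at h2
        have h3 : ((O ∩ T0 hm (by omega : 2 ≤ d)).card : ℝ) ≤ (K : ℝ) ^ 2 * (Ns K O : ℝ) := by
          exact_mod_cast h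
        rw [div_le_iff₀ (by positivity)]
        linarith
  refine le_trans (Pr_mono h0.le h1 key) (le_trans (Pr_or_le h0.le h1 _ _) ?_)
  apply add_le_add (mid_prob h0.le h1 K)
  refine le_trans (Pr_or_le h0.le h1 _ _) ?_
  apply add_le_add
  · have := few_open_prob h0.le h1 (T0 hm (by omega : 2 ≤ d))
    rwa [hT] at this ⊢
  · exact ns_prob h0.le h1 K (by positivity)

theorem term_bound {N p x c : ℝ} {k K d : ℕ} (hN : 1 ≤ N) (hk1 : 1 ≤ k) (hk : k ≤ 2 * K - 1)
    (hK : 1 ≤ K) (hd : 1 ≤ d) (hp : 0 ≤ p) (hx : N * p = x)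
    (hc : c = (2 * (K : ℝ) * d) ^ (2 * K) * 2 ^ ((2 * K) ^ 2)) :
    N ^ d * (((k : ℝ) + 1) * (d * N)) ^ k * (2 ^ ((k + 1) ^ 2) * p ^ (k - 1)) ≤
      c * (N ^ (d + 1) * x ^ (k - 1)) := by
  have hd0 : (1 : ℝ) ≤ d := by exact_mod_cast hd
  have hK0 : (1 : ℝ) ≤ K := by exact_mod_cast hK
  have hkK : (k : ℝ) + 1 ≤ 2 * K := by
    have : k + 1 ≤ 2 * K := by omega
    exact_mod_cast this
  obtain ⟨j, rfl⟩ : ∃ j, k = j + 1 := ⟨k - 1, by omega⟩
  have e1 : N ^ d * ((((j + 1 : ℕ) : ℝ) + 1) * (d * N)) ^ (j + 1) *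
      (2 ^ ((j + 1 + 1) ^ 2) * p ^ (j + 1 - 1)) =
      (((((j + 1 : ℕ) : ℝ) + 1) * d) ^ (j + 1) * 2 ^ ((j + 1 + 1) ^ 2)) * (N ^ (d + 1) * x ^ j) := by
    rw [← hx]
    have : j + 1 - 1 = j := by omega
    rw [this]
    generalize (((j + 1 : ℕ) : ℝ) + 1) = w
    ring
  rw [e1]
  have : j + 1 - 1 = j := by omega
  rw [this]
  have hx0 : 0 ≤ x := by rw [← hx]; positivity
  apply mul_le_mul_of_nonneg_right _ (by positivity)
  rw [hc]
  apply mul_le_mul
  · calc ((((j + 1 : ℕ) : ℝ) + 1) * d) ^ (j + 1) ≤ (2 * (K : ℝ) * d) ^ (j + 1) := by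
          apply pow_le_pow_left₀ (by positivity)
          exact mul_le_mul_of_nonneg_right hkK (by positivity)
      _ ≤ (2 * (K : ℝ) * d) ^ (2 * K) := by
          apply pow_le_pow_right₀
          · nlinarith
          · omega
  · apply pow_le_pow_right₀ (by norm_num)
    apply Nat.pow_le_pow_left
    omega
  · positivity
  · positivity

theorem tendsto_rpow_neg_nat {a : ℝ} (ha : 0 < a) :
    Tendsto (fun n : ℕ => (n : ℝ) ^ (-a)) atTop (𝓝 0) :=
  (tendsto_rpow_neg_atTop ha).comp tendsto_natCast_atTop_atTop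

theorem lower_sat {d : ℕ} (hd : 3 ≤ d) {ε : ℝ} (hε : 0 < ε) (hε1 : ε ≤ 1) :
    ∀ᶠ n : ℕ in atTop, Pr ((n : ℝ) ^ (-1 - ε)) (fun O : Finset (NonEdge n d) => Saturated O) < 1 / 2 := by
  obtain ⟨K, hKε⟩ := exists_nat_ge (((d : ℝ) + 2) / ε + 2)
  have hK2 : 2 ≤ K := by
    have : (2 : ℝ) ≤ K := by
      have : 0 ≤ ((d : ℝ) + 2) / ε := by positivity
      linarith
    exact_mod_cast this
  have hK0 : (0 : ℝ) < K := by exact_mod_cast (by omega : 0 < K)
  set c : ℝ := (2 * (K : ℝ) * d) ^ (2 * K) * 2 ^ ((2 * K) ^ 2) with hc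
  have hd0 : (0 : ℝ) < d := by exact_mod_cast (by omega : 0 < d)
  have hc0 : 0 < c := by positivity
  -- limits
  have L1 : ∀ᶠ n : ℕ in atTop, (2 * K) * (c * (n : ℝ) ^ (-(1 : ℝ))) < 1 / 8 := by
    have : Tendsto (fun n : ℕ => (2 * K) * (c * (n : ℝ) ^ (-(1 : ℝ)))) atTop (𝓝 ((2 * K) * (c * 0))) :=
      ((tendsto_rpow_neg_nat one_pos).const_mul c).const_mul _
    rw [mul_zero, mul_zero] at this
    exact this.eventually_lt_const (by norm_num)
  have L3 : ∀ᶠ n : ℕ in atTop, (2 * K ^ 3 * 4 ^ (2 * d)) * (c * (n : ℝ) ^ (-(1 : ℝ))) < 1 / 8 := by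
    have : Tendsto (fun n : ℕ => (2 * (K : ℝ) ^ 3 * 4 ^ (2 * d)) * (c * (n : ℝ) ^ (-(1 : ℝ)))) atTop
        (𝓝 ((2 * K ^ 3 * 4 ^ (2 * d)) * (c * 0))) :=
      ((tendsto_rpow_neg_nat one_pos).const_mul c).const_mul _
    rw [mul_zero, mul_zero] at this
    exact this.eventually_lt_const (by norm_num)
  have L2 : ∀ᶠ n : ℕ in atTop, Real.exp (-(((n : ℝ) / (10 * 4 ^ (2 * d))))) < 1 / 8 := by
    have h1 : Tendsto (fun n : ℕ => (n : ℝ) / (10 * 4 ^ (2 * d))) atTop atTop :=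
      tendsto_natCast_atTop_atTop.atTop_div_const (by positivity)
    have := Real.tendsto_exp_neg_atTop_nhds_zero.comp h1
    exact this.eventually_lt_const (by norm_num)
  filter_upwards [L1, L2, L3, eventually_ge_atTop 4] with n l1 l2 l3 hn
  have hn0 : (0 : ℝ) < n := by exact_mod_cast (by omega : 0 < n)
  have hn1 : (1 : ℝ) ≤ n := by exact_mod_cast (by omega : 1 ≤ n)
  set p : ℝ := (n : ℝ) ^ (-1 - ε) with hp
  have hp0 : 0 < p := Real.rpow_pos_of_pos hn0 _
  have hp1 : p ≤ 1 := Real.rpow_le_one_of_one_le_of_nonpos hn1 (by linarith)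
  set x : ℝ := (n : ℝ) ^ (-ε) with hx
  have hx0 : 0 < x := Real.rpow_pos_of_pos hn0 _
  have hx1 : x ≤ 1 := Real.rpow_le_one_of_one_le_of_nonpos hn1 (by linarith)
  have hnp : (n : ℝ) * p = x := by
    rw [hp, hx]
    have : (n : ℝ) * (n : ℝ) ^ (-1 - ε) = (n : ℝ) ^ (1 : ℝ) * (n : ℝ) ^ (-1 - ε) := by
      rw [Real.rpow_one]
    rw [this, ← Real.rpow_add hn0]
    congr 1
    ring
  set m : ℕ := n / 2 with hm
  have hm2 : 2 * m ≤ n := by omega
  have hm1 : 1 ≤ m := by omega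
  have hm4 : (n : ℝ) / 4 ≤ m := by
    have : n ≤ 4 * m := by omega
    have : (n : ℝ) ≤ 4 * m := by exact_mod_cast this
    linarith
  have hmain := sat_prob hm2 hm1 hd hK2 hp0 hp1
  -- first sum
  have hS1 : ∑ k ∈ Icc K (2 * K - 1),
        (n : ℝ) ^ d * (((k : ℝ) + 1) * (d * n)) ^ k * (2 ^ ((k + 1) ^ 2) * p ^ (k - 1)) ≤
      (2 * K) * (c * (n : ℝ) ^ (-(1 : ℝ))) := by
    calc _ ≤ ∑ k ∈ Icc K (2 * K - 1), c * (n : ℝ) ^ (-(1 : ℝ)) := by
          apply sum_le_sum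
          intro k hk
          rw [mem_Icc] at hk
          refine le_trans (term_bound hn1 (by omega) hk.2 (by omega) (by omega) hp0.le hnp hc) ?_
          apply mul_le_mul_of_nonneg_left _ hc0.le
          have e1 : x ^ (k - 1) ≤ x ^ (K - 1) := pow_le_pow_of_le_one hx0.le hx1 (by omega)
          calc (n : ℝ) ^ (d + 1) * x ^ (k - 1) ≤ (n : ℝ) ^ (d + 1) * x ^ (K - 1) :=
                mul_le_mul_of_nonneg_left e1 (by positivity)
            _ = (n : ℝ) ^ (((d : ℝ) + 1) + (-ε) * ((K : ℝ) - 1)) := by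
                rw [Real.rpow_add hn0, hx, ← Real.rpow_natCast, ← Real.rpow_natCast, ← Real.rpow_mul hn0.le]
                push_cast [Nat.cast_sub (by omega : 1 ≤ K)]
                rfl
            _ ≤ (n : ℝ) ^ (-(1 : ℝ)) := by
                apply Real.rpow_le_rpow_of_exponent_le hn1
                have e2 : ((d : ℝ) + 2) / ε ≤ (K : ℝ) - 1 := by linarith
                rw [div_le_iff₀ hε] at e2
                linarith
      _ = ((Icc K (2 * K - 1)).card : ℝ) * (c * (n : ℝ) ^ (-(1 : ℝ))) := by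
          rw [sum_const, nsmul_eq_mul]
      _ ≤ _ := by
          apply mul_le_mul_of_nonneg_right _ (by positivity)
          rw [Nat.card_Icc]
          have : 2 * K - 1 + 1 - K ≤ 2 * K := by omega
          exact_mod_cast this
  have hmpow : ((n : ℝ) / 4) ^ (2 * d) ≤ (m : ℝ) ^ (2 * d) := pow_le_pow_left₀ (by positivity) hm4 _
  have hn4 : (n : ℝ) ^ (2 * d) / 4 ^ (2 * d) ≤ (m : ℝ) ^ (2 * d) := by rwa [← div_pow]
  -- second term
  have hS2 : Real.exp (-(p * (m : ℝ) ^ (2 * d) / 10)) ≤ Real.exp (-(((n : ℝ) / (10 * 4 ^ (2 * d))))) := by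
    apply Real.exp_le_exp.2
    apply neg_le_neg
    have e3 : (n : ℝ) ≤ p * (n : ℝ) ^ (2 * d) := by
      have e4 : p * (n : ℝ) ^ (2 * d) = (n : ℝ) ^ ((-1 - ε) + ((2 * d : ℕ) : ℝ)) := by
        rw [Real.rpow_add hn0, Real.rpow_natCast]
      rw [e4]
      calc (n : ℝ) = (n : ℝ) ^ (1 : ℝ) := (Real.rpow_one _).symm
        _ ≤ _ := by
          apply Real.rpow_le_rpow_of_exponent_le hn1
          push_cast
          have : (3 : ℝ) ≤ d := by exact_mod_cast hd
          linarith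
    calc (n : ℝ) / (10 * 4 ^ (2 * d)) ≤ p * (n : ℝ) ^ (2 * d) / (10 * 4 ^ (2 * d)) :=
          div_le_div_of_nonneg_right e3 (by positivity)
      _ = p * ((n : ℝ) ^ (2 * d) / 4 ^ (2 * d)) / 10 := by ring
      _ ≤ _ := by
          apply div_le_div_of_nonneg_right _ (by norm_num)
          exact mul_le_mul_of_nonneg_left hn4 hp0.le
  -- third term
  have hS3 : (∑ k ∈ Icc 3 (K - 1),
        (n : ℝ) ^ d * (((k : ℝ) + 1) * (d * n)) ^ k * (2 ^ ((k + 1) ^ 2) * p ^ (k - 1))) /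
          (p * (m : ℝ) ^ (2 * d) / (2 * K ^ 2)) ≤
      (2 * K ^ 3 * 4 ^ (2 * d)) * (c * (n : ℝ) ^ (-(1 : ℝ))) := by
    have e5 : ∑ k ∈ Icc 3 (K - 1),
        (n : ℝ) ^ d * (((k : ℝ) + 1) * (d * n)) ^ k * (2 ^ ((k + 1) ^ 2) * p ^ (k - 1)) ≤
        K * (c * ((n : ℝ) ^ (d + 1) * x ^ 2)) := by
      calc _ ≤ ∑ k ∈ Icc 3 (K - 1), c * ((n : ℝ) ^ (d + 1) * x ^ 2) := by
            apply sum_le_sum
            intro k hk
            rw [mem_Icc] at hk
            refine le_trans (term_bound hn1 (by omega) (by omega) (by omega) (by omega) hp0.le hnp hc) ?_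
            apply mul_le_mul_of_nonneg_left _ hc0.le
            apply mul_le_mul_of_nonneg_left _ (by positivity)
            exact pow_le_pow_of_le_one hx0.le hx1 (by omega)
        _ = ((Icc 3 (K - 1)).card : ℝ) * (c * ((n : ℝ) ^ (d + 1) * x ^ 2)) := by
            rw [sum_const, nsmul_eq_mul]
        _ ≤ _ := by
            apply mul_le_mul_of_nonneg_right _ (by positivity)
            rw [Nat.card_Icc]
            have : K - 1 + 1 - 3 ≤ K := by omega
            exact_mod_cast this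
    rw [div_le_iff₀ (by positivity)]
    refine le_trans e5 ?_
    have e6 : (n : ℝ) ^ (d + 1) * x ^ 2 ≤ (n : ℝ) ^ (-(1 : ℝ)) * (p * (n : ℝ) ^ (2 * d)) := by
      have e7 : (n : ℝ) ^ (d + 1) * x ^ 2 = (n : ℝ) ^ ((((d + 1 : ℕ) : ℝ)) + (-ε) * ((2 : ℕ) : ℝ)) := by
        rw [Real.rpow_add hn0, Real.rpow_natCast, Real.rpow_mul_natCast hn0.le]
      have e8 : (n : ℝ) ^ (-(1 : ℝ)) * (p * (n : ℝ) ^ (2 * d)) =
          (n : ℝ) ^ (-(1 : ℝ) + ((-1 - ε) + ((2 * d : ℕ) : ℝ))) := by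
        rw [Real.rpow_add hn0, Real.rpow_add hn0, Real.rpow_natCast]
      rw [e7, e8]
      apply Real.rpow_le_rpow_of_exponent_le hn1
      push_cast
      have : (3 : ℝ) ≤ d := by exact_mod_cast hd
      linarith
    have e9 : p * (n : ℝ) ^ (2 * d) ≤ p * (4 ^ (2 * d) * (m : ℝ) ^ (2 * d)) := by
      apply mul_le_mul_of_nonneg_left _ hp0.le
      rw [div_le_iff₀ (by positivity)] at hn4
      linarith
    have e10 : (0 : ℝ) ≤ (n : ℝ) ^ (-(1 : ℝ)) := Real.rpow_nonneg hn0.le _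
    calc K * (c * ((n : ℝ) ^ (d + 1) * x ^ 2))
        ≤ K * (c * ((n : ℝ) ^ (-(1 : ℝ)) * (p * (4 ^ (2 * d) * (m : ℝ) ^ (2 * d))))) := by
          apply mul_le_mul_of_nonneg_left _ hK0.le
          apply mul_le_mul_of_nonneg_left _ hc0.le
          exact le_trans e6 (mul_le_mul_of_nonneg_left e9 e10)
      _ = (2 * K ^ 3 * 4 ^ (2 * d)) * (c * (n : ℝ) ^ (-(1 : ℝ))) * (p * (m : ℝ) ^ (2 * d) / (2 * K ^ 2)) := by
          field_simp
  linarith

/-- the critical density of the polluted transitive closure on Hamming graphs -/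
theorem pc_bounds {d : ℕ} (hd : 3 ≤ d) {ε : ℝ} (hε : 0 < ε) :
    ∀ᶠ n : ℕ in atTop, (n : ℝ) ^ (-1 - ε) ≤ pc n d ∧ pc n d ≤ (4 * d + 6) * Real.log n / n := by
  have hmin : 0 < min ε 1 := lt_min hε one_pos
  have L4 : ∀ᶠ n : ℕ in atTop, (4 * (d : ℝ) + 6) * Real.log n / n ≤ 1 := by
    have h1 : Tendsto (fun x : ℝ => Real.log x / x) atTop (𝓝 0) := by
      have := Real.isLittleO_log_id_atTop.tendsto_div_nhds_zero
      simpa using this
    have h2 := (h1.comp (tendsto_natCast_atTop_atTop (R := ℝ))).const_mul (4 * (d : ℝ) + 6)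
    rw [mul_zero] at h2
    filter_upwards [h2.eventually_lt_const one_pos] with n hn
    simp only [Function.comp] at hn
    rw [mul_div_assoc]
    exact hn.le
  filter_upwards [lower_sat hd hmin (min_le_right _ _), L4, eventually_ge_atTop (4 * d + 2)]
    with n h1 h2 hn
  have hn1 : (1 : ℝ) ≤ n := by exact_mod_cast (by omega : 1 ≤ n)
  have hmem : (4 * (d : ℝ) + 6) * Real.log n / n ∈ {p : ℝ | 0 ≤ p ∧ p ≤ 1 ∧ ∀ p' : ℝ, p ≤ p' →
      p' ≤ 1 → 1 / 2 ≤ prob n d p' Saturated} := by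
    refine ⟨?_, h2, fun p' hp' hp1 => upper (by omega) hn hp' hp1⟩
    have := Real.log_natCast_nonneg n
    positivity
  refine ⟨?_, ?_⟩
  · unfold pc
    apply le_csInf ⟨_, hmem⟩
    rintro p ⟨_, _, hp⟩
    by_contra hcon
    push Not at hcon
    have h3 : (n : ℝ) ^ (-1 - ε) ≤ (n : ℝ) ^ (-1 - min ε 1) := by
      apply Real.rpow_le_rpow_of_exponent_le hn1
      have := min_le_left ε 1
      linarith
    have h4 := hp ((n : ℝ) ^ (-1 - min ε 1)) (by linarith)
      (Real.rpow_le_one_of_one_le_of_nonpos hn1 (by linarith))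
    rw [prob_eq] at h4
    linarith
  · unfold pc
    exact csInf_le ⟨0, fun p hp => hp.1⟩ hmem

end Pool.Agent.H500R3.Ham
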