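import Pool.Agent.H500R3.Ham.Def

/-! Upper bound for the critical density: connectivity of random bipartite graphs. -/

set_option autoImplicit false

namespace Pool.Agent.H500R3.Ham
open Finset Classical Pool.Agent.Helper91.BP

variable {n d : ℕ}

/-- the point `(a,b)` of the plane through `x` in the directions `i`, `j` -/
def pl (x : V n d) (i j : Fin d) (a b : Fin n) : V n d :=
  Function.update (Function.update x i a) j b

theorem pl_i (x : V n d) {i j : Fin d} (h : i ≠ j) (a b : Fin n) : pl x i j a b i = a := by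
  unfold pl
  rw [Function.update_of_ne h, Function.update_self]

theorem pl_j (x : V n d) (i j : Fin d) (a b : Fin n) : pl x i j a b j = b := by
  unfold pl
  rw [Function.update_self]

theorem pl_k (x : V n d) {i j k : Fin d} (h1 : k ≠ i) (h2 : k ≠ j) (a b : Fin n) :
    pl x i j a b k = x k := by
  unfold pl
  rw [Function.update_of_ne h2, Function.update_of_ne h1]

theorem pl_self (x : V n d) (i j : Fin d) (h : i ≠ j) : pl x i j (x i) (x j) = x := by
  funext k
  by_cases h2 : k = j
  · subst h2; rw [pl_j]
  · by_cases h1 : k = i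
    · subst h1; rw [pl_i x h]
    · rw [pl_k x h1 h2]

theorem dist_one {x y : V n d} {i : Fin d} (h1 : x i ≠ y i) (h2 : ∀ k, k ≠ i → x k = y k) :
    hammingDist x y = 1 := by
  unfold hammingDist
  rw [card_eq_one]
  refine ⟨i, ?_⟩
  ext k
  rw [mem_filter, mem_singleton]
  constructor
  · rintro ⟨_, h⟩
    by_contra hk
    exact h (h2 k hk)
  · rintro rfl
    exact ⟨mem_univ _, h1⟩

theorem dist_ge_two {x y : V n d} {i k : Fin d} (h : i ≠ k) (h1 : x i ≠ y i) (h2 : x k ≠ y k) :
    2 ≤ hammingDist x y := by
  unfold hammingDist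
  have : ({i, k} : Finset (Fin d)) ⊆ univ.filter (fun l => x l ≠ y l) := by
    intro l hl
    rw [mem_insert, mem_singleton] at hl
    rw [mem_filter]
    rcases hl with rfl | rfl
    · exact ⟨mem_univ _, h1⟩
    · exact ⟨mem_univ _, h2⟩
  have h3 := card_le_card this
  rw [card_pair h] at h3
  exact h3

/-- no open pair crosses the cut `(R, C)` of the plane -/
def NoCross (O : Finset (NonEdge n d)) (y x : V n d) (i j : Fin d) (R C : Finset (Fin n)) : Prop :=
  ∀ a b, ((a ∈ R ∧ b ∉ C) ∨ (a ∉ R ∧ b ∈ C)) → ¬ IsOpen O (pl x i j a b) y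

theorem sat_of (O : Finset (NonEdge n d))
    (h : ∀ (y x : V n d) (i j : Fin d) (R C : Finset (Fin n)), i ≠ j →
      (∃ k, k ≠ i ∧ k ≠ j ∧ x k ≠ y k) → R.Nonempty → y i ∉ R → y j ∉ C →
      ¬ NoCross O y x i j R C) : Saturated O := by
  have main : ∀ m : ℕ, ∀ x y : V n d, hammingDist x y = m → IsOpen O x y → Ev O x y := by
    intro m
    induction m using Nat.strong_induction_on with
    | _ m ih =>
      intro x y hm hopen
      have hm2 := hopen.dist
      by_cases hm3 : m = 2
      · -- distance two
        have hpos : 0 < (univ.filter (fun l => x l ≠ y l)).card := by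
          unfold hammingDist at hm
          omega
        obtain ⟨i, hi⟩ := card_pos.1 hpos
        rw [mem_filter] at hi
        have hi := hi.2
        refine Ev.step hopen (z := Function.update x i (y i)) (Ev.base ?_) (Ev.base ?_)
        · apply dist_one (i := i)
          · rw [Function.update_self]; exact hi
          · intro k hk
            rw [Function.update_of_ne hk]
        · have h1 : univ.filter (fun l => x l ≠ y l) =
              insert i (univ.filter (fun l => Function.update x i (y i) l ≠ y l)) := by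
            ext k
            rw [mem_filter, mem_insert, mem_filter]
            by_cases hk : k = i
            · subst hk; simp [hi]
            · rw [Function.update_of_ne hk]; simp [hk]
          have h2 : hammingDist x y = hammingDist (Function.update x i (y i)) y + 1 := by
            unfold hammingDist
            rw [h1, card_insert_of_notMem]
            rw [mem_filter, Function.update_self]
            simp
          omega
      · -- distance at least three
        have hm4 : 2 < (univ.filter (fun l => x l ≠ y l)).card := by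
          unfold hammingDist at hm hm2
          omega
        rw [two_lt_card] at hm4
        obtain ⟨i, hi, j, hj, k, hk, hij, hik, hjk⟩ := hm4
        rw [mem_filter] at hi hj hk
        have hi := hi.2
        have hj := hj.2
        have hk := hk.2
        by_contra hev
        set R : Finset (Fin n) := univ.filter
          (fun a => ∃ b, IsOpen O (pl x i j a b) y ∧ ¬ Ev O (pl x i j a b) y) with hR
        set C : Finset (Fin n) := univ.filter
          (fun b => ∃ a, IsOpen O (pl x i j a b) y ∧ ¬ Ev O (pl x i j a b) y) with hC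
        have hsub : ∀ a b, (a = y i ∨ b = y j) → hammingDist (pl x i j a b) y < m := by
          intro a b hab
          rw [← hm]
          unfold hammingDist
          apply card_lt_card
          rw [ssubset_iff_of_subset]
          · rcases hab with rfl | rfl
            · refine ⟨i, ?_, ?_⟩
              · rw [mem_filter]; exact ⟨mem_univ _, hi⟩
              · rw [mem_filter, pl_i x hij]; simp
            · refine ⟨j, ?_, ?_⟩
              · rw [mem_filter]; exact ⟨mem_univ _, hj⟩
              · rw [mem_filter, pl_j]; simp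
          · intro l hl
            rw [mem_filter] at hl ⊢
            refine ⟨mem_univ _, ?_⟩
            by_cases h1 : l = i
            · subst h1; exact hi
            · by_cases h2 : l = j
              · subst h2; exact hj
              · have := hl.2
                rwa [pl_k x h1 h2] at this
        have hyR : y i ∉ R := by
          intro hmem
          rw [hR, mem_filter] at hmem
          obtain ⟨_, b, hb1, hb2⟩ := hmem
          exact hb2 (ih _ (hsub _ _ (Or.inl rfl)) _ _ rfl hb1)
        have hyC : y j ∉ C := by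
          intro hmem
          rw [hC, mem_filter] at hmem
          obtain ⟨_, b, hb1, hb2⟩ := hmem
          exact hb2 (ih _ (hsub _ _ (Or.inr rfl)) _ _ rfl hb1)
        have hxR : x i ∈ R := by
          rw [hR, mem_filter]
          refine ⟨mem_univ _, x j, ?_, ?_⟩
          · rw [pl_self x i j hij]; exact hopen
          · rw [pl_self x i j hij]; exact hev
        apply h y x i j R C hij ⟨k, hik.symm, hjk.symm, hk⟩ ⟨_, hxR⟩ hyR hyC
        intro a b hab hop
        rcases hab with ⟨ha, hb⟩ | ⟨ha, hb⟩
        · have hev1 : Ev O (pl x i j a b) y := by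
            by_contra hcon
            apply hb
            rw [hC, mem_filter]
            exact ⟨mem_univ _, a, hop, hcon⟩
          rw [hR, mem_filter] at ha
          obtain ⟨_, b', hb1, hb2⟩ := ha
          by_cases hbb : b' = b
          · subst hbb; exact hb2 hev1
          · apply hb2
            refine Ev.step hb1 (Ev.base ?_) hev1
            apply dist_one (i := j)
            · rw [pl_j, pl_j]; exact hbb
            · intro l hl
              by_cases h1 : l = i
              · subst h1; rw [pl_i x hij, pl_i x hij]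
              · rw [pl_k x h1 hl, pl_k x h1 hl]
        · have hev1 : Ev O (pl x i j a b) y := by
            by_contra hcon
            apply ha
            rw [hR, mem_filter]
            exact ⟨mem_univ _, b, hop, hcon⟩
          rw [hC, mem_filter] at hb
          obtain ⟨_, a', hb1, hb2⟩ := hb
          by_cases hbb : a' = a
          · subst hbb; exact hb2 hev1
          · apply hb2
            refine Ev.step hb1 (Ev.base ?_) hev1
            apply dist_one (i := i)
            · rw [pl_i x hij, pl_i x hij]; exact hbb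
            · intro l hl
              by_cases h1 : l = j
              · subst h1; rw [pl_j, pl_j]
              · rw [pl_k x hl h1, pl_k x hl h1]
  intro x y hxy
  exact main _ x y rfl hxy

theorem Pr_avoid {W : Type*} [Fintype W] [DecidableEq W] {p : ℝ} (h1 : p ≤ 1)
    (T : Finset W) : Pr p (fun A => ∀ e ∈ T, e ∉ A) ≤ Real.exp (-(p * T.card)) := by
  have h := sum_prod (V := W) p (fun w => if w ∈ T then 0 else 1) (fun _ => 1)
  have h2 : Pr p (fun A => ∀ e ∈ T, e ∉ A) = ∑ A : Finset W, wt p A *
      ((∏ w ∈ A, (if w ∈ T then (0 : ℝ) else 1)) * (∏ w ∈ Aᶜ, (1 : ℝ))) := by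
    unfold Pr
    apply Finset.sum_congr rfl
    intro A _
    rw [Finset.prod_const_one, mul_one]
    by_cases hD : ∀ e ∈ T, e ∉ A
    · rw [if_pos hD]
      have : ∏ w ∈ A, (if w ∈ T then (0 : ℝ) else 1) = 1 := by
        apply Finset.prod_eq_one
        intro w hw
        rw [if_neg]
        intro h
        exact hD w h hw
      rw [this, mul_one]
    · rw [if_neg hD]
      push Not at hD
      obtain ⟨e, he, heA⟩ := hD
      have : ∏ w ∈ A, (if w ∈ T then (0 : ℝ) else 1) = 0 := by
        apply Finset.prod_eq_zero (i := e) heA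
        rw [if_pos he]
      rw [this, mul_zero]
  rw [h2, h]
  have h3 : ∀ w : W, p * (if w ∈ T then (0 : ℝ) else 1) + (1 - p) * 1 = if w ∈ T then 1 - p else 1 := by
    intro w
    split_ifs <;> ring
  simp_rw [h3]
  rw [Finset.prod_ite_mem, Finset.univ_inter, Finset.prod_const]
  have h4 : 1 - p ≤ Real.exp (-p) := by
    have := Real.add_one_le_exp (-p)
    linarith
  calc (1 - p) ^ T.card ≤ Real.exp (-p) ^ T.card := pow_le_pow_left₀ (by linarith) h4 _
    _ = Real.exp (-(p * T.card)) := by
      rw [← Real.exp_nat_mul]; congr 1; ring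

/-- the crossing pairs -/
def crs (R C : Finset (Fin n)) : Finset (Fin n × Fin n) := (R ×ˢ Cᶜ) ∪ (Rᶜ ×ˢ C)

theorem card_crs (R C : Finset (Fin n)) :
    (crs R C).card = R.card * (n - C.card) + (n - R.card) * C.card := by
  unfold crs
  rw [card_union_of_disjoint, card_product, card_product, card_compl, card_compl, Fintype.card_fin]
  rw [disjoint_left]
  rintro ⟨a, b⟩ h1 h2
  rw [mem_product] at h1 h2
  exact (mem_compl.1 h2.1) h1.1

theorem noCross_prob {p : ℝ} (h0 : 0 ≤ p) (h1 : p ≤ 1) (y x : V n d) (i j : Fin d)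
    (R C : Finset (Fin n)) (hij : i ≠ j) (hk : ∃ k, k ≠ i ∧ k ≠ j ∧ x k ≠ y k) (hR : y i ∉ R)
    (hC : y j ∉ C) :
    Pr p (fun O : Finset (NonEdge n d) => NoCross O y x i j R C) ≤
      Real.exp (-(p * ((R.card * (n - C.card) + (n - R.card) * C.card : ℕ) : ℝ))) := by
  obtain ⟨k, hki, hkj, hk⟩ := hk
  set T : Finset (NonEdge n d) := univ.filter
    (fun e => ∃ ab ∈ crs R C, (e : Sym2 (V n d)) = s(pl x i j ab.1 ab.2, y)) with hT
  have hdist : ∀ a b, (a, b) ∈ crs R C → 2 ≤ hammingDist (pl x i j a b) y := by
    intro a b hab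
    unfold crs at hab
    rw [mem_union, mem_product, mem_product] at hab
    simp only [mem_compl] at hab
    rcases hab with ⟨ha, hb⟩ | ⟨ha, hb⟩
    · apply dist_ge_two (i := i) (k := k) hki.symm
      · rw [pl_i x hij]; rintro rfl; exact hR ha
      · rw [pl_k x hki hkj]; exact hk
    · apply dist_ge_two (i := j) (k := k) hkj.symm
      · rw [pl_j]; rintro rfl; exact hC hb
      · rw [pl_k x hki hkj]; exact hk
  have hcard : (crs R C).card ≤ T.card := by
    have hinj : Set.InjOn (fun ab : Fin n × Fin n => s(pl x i j ab.1 ab.2, y)) (crs R C : Set (Fin n × Fin n)) := by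
      rintro ⟨a, b⟩ hab ⟨a', b'⟩ hab' h
      simp only at h
      rw [Sym2.eq_iff] at h
      have h3 : pl x i j a b = pl x i j a' b' := by
        rcases h with ⟨h, _⟩ | ⟨h, h'⟩
        · exact h
        · rw [h, h']
      have e1 := congrFun h3 i
      have e2 := congrFun h3 j
      rw [pl_i x hij, pl_i x hij] at e1
      rw [pl_j, pl_j] at e2
      rw [e1, e2]
    calc (crs R C).card = ((crs R C).image (fun ab : Fin n × Fin n => s(pl x i j ab.1 ab.2, y))).card :=
          (card_image_of_injOn hinj).symm
      _ ≤ (T.image (Subtype.val)).card := by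
          apply card_le_card
          intro e he
          rw [mem_image] at he
          obtain ⟨⟨a, b⟩, hab, rfl⟩ := he
          rw [mem_image]
          refine ⟨slot _ _ (hdist a b hab), ?_, rfl⟩
          rw [hT, mem_filter]
          exact ⟨mem_univ _, (a, b), hab, rfl⟩
      _ ≤ T.card := card_image_le
  calc Pr p (fun O : Finset (NonEdge n d) => NoCross O y x i j R C)
      ≤ Pr p (fun O : Finset (NonEdge n d) => ∀ e ∈ T, e ∉ O) := by
        apply Pr_mono h0 h1
        intro O hO e he heO
        rw [hT, mem_filter] at he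
        obtain ⟨_, ⟨a, b⟩, hab, he2⟩ := he
        refine hO a b ?_ ⟨e, heO, he2⟩
        unfold crs at hab
        rw [mem_union, mem_product, mem_product] at hab
        simpa only [mem_compl] using hab
    _ ≤ Real.exp (-(p * T.card)) := Pr_avoid h1 T
    _ ≤ _ := by
        apply Real.exp_le_exp.2
        apply neg_le_neg
        apply mul_le_mul_of_nonneg_left _ h0
        rw [← card_crs]
        exact_mod_cast hcard

theorem cross_bound {p : ℝ} (h0 : 0 ≤ p) (R C : Finset (Fin n)) :
    Real.exp (-(p * ((R.card * (n - C.card) + (n - R.card) * C.card : ℕ) : ℝ))) ≤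
      Real.exp (-(p * n / 2)) ^ (R.card + C.card) +
      Real.exp (-(p * n / 2)) ^ ((n - R.card) + (n - C.card)) := by
  have hr : R.card ≤ n := by simpa using card_le_univ R
  have hc : C.card ≤ n := by simpa using card_le_univ C
  rw [← Real.exp_nat_mul, ← Real.exp_nat_mul]
  have hr' : (R.card : ℝ) ≤ n := by exact_mod_cast hr
  have hc' : (C.card : ℝ) ≤ n := by exact_mod_cast hc
  have hr0 : (0 : ℝ) ≤ R.card := Nat.cast_nonneg _
  have hc0 : (0 : ℝ) ≤ C.card := Nat.cast_nonneg _
  have e1 : ((R.card * (n - C.card) + (n - R.card) * C.card : ℕ) : ℝ) =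
      R.card * (n - C.card) + (n - R.card) * C.card := by
    push_cast [Nat.cast_sub hr, Nat.cast_sub hc]
    ring
  have e2 : (((n - R.card) + (n - C.card) : ℕ) : ℝ) = (n - R.card) + (n - C.card) := by
    push_cast [Nat.cast_sub hr, Nat.cast_sub hc]
    ring
  rw [e1, e2]
  push_cast
  set r : ℝ := (R.card : ℝ)
  set c : ℝ := (C.card : ℝ)
  set N : ℝ := (n : ℝ)
  rcases le_total (r + c) N with h | h
  · have : Real.exp (-(p * (r * (N - c) + (N - r) * c))) ≤ Real.exp ((r + c) * -(p * N / 2)) := by
      apply Real.exp_le_exp.2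
      have h5 : (r + c) * N / 2 ≤ r * (N - c) + (N - r) * c := by nlinarith [sq_nonneg (r - c)]
      nlinarith
    have h6 := Real.exp_pos ((N - r + (N - c)) * -(p * N / 2))
    linarith
  · have : Real.exp (-(p * (r * (N - c) + (N - r) * c))) ≤
        Real.exp ((N - r + (N - c)) * -(p * N / 2)) := by
      apply Real.exp_le_exp.2
      have h5 : (N - r + (N - c)) * N / 2 ≤ r * (N - c) + (N - r) * c := by
        nlinarith [sq_nonneg (r - c)]
      nlinarith
    have h6 := Real.exp_pos ((r + c) * -(p * N / 2))
    linarith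

theorem sum_cuts {p : ℝ} (h0 : 0 ≤ p) (hx : 2 * n * Real.exp (-(p * n / 2)) ≤ 1) :
    ∑ RC ∈ (univ : Finset (Finset (Fin n) × Finset (Fin n))).filter
        (fun RC => RC.1.Nonempty ∧ RC.1 ≠ univ),
      Real.exp (-(p * ((RC.1.card * (n - RC.2.card) + (n - RC.1.card) * RC.2.card : ℕ) : ℝ))) ≤
      8 * n * Real.exp (-(p * n / 2)) := by
  set x : ℝ := Real.exp (-(p * n / 2)) with hxdef
  have hx0 : 0 < x := Real.exp_pos _
  have hA : ∑ RC : Finset (Fin n) × Finset (Fin n), x ^ (RC.1.card + RC.2.card) = (1 + x) ^ (2 * n) := by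
    rw [← univ_product_univ, sum_product]
    have e1 : ∀ a : Finset (Fin n), ∑ b : Finset (Fin n), x ^ (a.card + b.card) =
        x ^ a.card * (x + 1) ^ n := by
      intro a
      have := Fintype.sum_pow_mul_eq_add_pow (Fin n) x 1
      rw [Fintype.card_fin] at this
      rw [← this, mul_sum]
      apply sum_congr rfl
      intro b _
      rw [pow_add, one_pow, mul_one]
    simp_rw [e1]
    rw [← sum_mul]
    have := Fintype.sum_pow_mul_eq_add_pow (Fin n) x 1
    rw [Fintype.card_fin] at this
    simp only [one_pow, mul_one] at this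
    rw [this]
    ring
  have hB : ∑ RC : Finset (Fin n) × Finset (Fin n), x ^ ((n - RC.1.card) + (n - RC.2.card)) =
      (1 + x) ^ (2 * n) := by
    rw [← univ_product_univ, sum_product]
    have h2 := Fintype.sum_pow_mul_eq_add_pow (Fin n) 1 x
    rw [Fintype.card_fin] at h2
    simp only [one_pow, one_mul] at h2
    have e1 : ∀ a : Finset (Fin n), ∑ b : Finset (Fin n), x ^ ((n - a.card) + (n - b.card)) =
        x ^ (n - a.card) * (1 + x) ^ n := by
      intro a
      rw [← h2, mul_sum]
      apply sum_congr rfl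
      intro b _
      rw [pow_add]
    simp_rw [e1]
    rw [← sum_mul, h2]
    ring
  have hsplit : ∀ (f : Finset (Fin n) × Finset (Fin n) → ℝ) (z : Finset (Fin n) × Finset (Fin n)),
      (∀ w, 0 ≤ f w) → (¬ (z.1.Nonempty ∧ z.1 ≠ univ)) →
      ∑ RC ∈ (univ : Finset (Finset (Fin n) × Finset (Fin n))).filter
        (fun RC => RC.1.Nonempty ∧ RC.1 ≠ univ), f RC + f z ≤ ∑ RC, f RC := by
    intro f z hf hz
    rw [add_comm, ← sum_insert (a := z)]
    · apply sum_le_univ_sum_of_nonneg hf
    · rw [mem_filter]
      rintro ⟨_, h⟩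
      exact hz h
  have h1 := hsplit (fun RC => x ^ (RC.1.card + RC.2.card)) (∅, ∅) (fun w => by positivity) (by
    simp)
  have h2 := hsplit (fun RC => x ^ ((n - RC.1.card) + (n - RC.2.card))) (univ, univ)
    (fun w => by positivity) (by simp)
  rw [hA] at h1
  rw [hB] at h2
  simp only [card_empty, add_zero, pow_zero, card_univ, Fintype.card_fin, Nat.sub_self] at h1 h2
  have hpow : (1 + x) ^ (2 * n) ≤ 1 + 4 * n * x := by
    have e1 : (1 + x) ^ (2 * n) ≤ Real.exp x ^ (2 * n) :=
      pow_le_pow_left₀ (by positivity) (by have := Real.add_one_le_exp x; linarith) _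
    rw [← Real.exp_nat_mul] at e1
    push_cast at e1
    have e2 := Real.abs_exp_sub_one_sub_id_le (x := 2 * (n : ℝ) * x) (by
      rw [abs_le]
      constructor
      · have : 0 ≤ 2 * (n : ℝ) * x := by positivity
        linarith
      · exact hx)
    have e3 := (abs_le.1 e2).2
    have e4 : (2 * (n : ℝ) * x) ^ 2 ≤ 2 * (n : ℝ) * x := by
      have : 0 ≤ 2 * (n : ℝ) * x := by positivity
      nlinarith
    linarith
  calc _ ≤ ∑ RC ∈ (univ : Finset (Finset (Fin n) × Finset (Fin n))).filter
        (fun RC => RC.1.Nonempty ∧ RC.1 ≠ univ),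
        (x ^ (RC.1.card + RC.2.card) + x ^ ((n - RC.1.card) + (n - RC.2.card))) :=
        sum_le_sum (fun RC _ => cross_bound h0 RC.1 RC.2)
    _ = ∑ RC ∈ (univ : Finset (Finset (Fin n) × Finset (Fin n))).filter
        (fun RC => RC.1.Nonempty ∧ RC.1 ≠ univ), x ^ (RC.1.card + RC.2.card) +
        ∑ RC ∈ (univ : Finset (Finset (Fin n) × Finset (Fin n))).filter
        (fun RC => RC.1.Nonempty ∧ RC.1 ≠ univ), x ^ ((n - RC.1.card) + (n - RC.2.card)) :=
        sum_add_distrib
    _ ≤ _ := by linarith

theorem not_sat {p : ℝ} (h0 : 0 ≤ p) (h1 : p ≤ 1) (hx : 2 * n * Real.exp (-(p * n / 2)) ≤ 1) :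
    Pr p (fun O : Finset (NonEdge n d) => ¬ Saturated O) ≤
      (n : ℝ) ^ d * ((n : ℝ) ^ d * (d * (d * (8 * n * Real.exp (-(p * n / 2)))))) := by
  set Good : V n d → V n d → Fin d → Fin d → Finset (Fin n) × Finset (Fin n) → Prop :=
    fun y x i j RC => i ≠ j ∧ (∃ k, k ≠ i ∧ k ≠ j ∧ x k ≠ y k) ∧ y i ∉ RC.1 ∧ y j ∉ RC.2 with hG
  set F : Finset (Finset (Fin n) × Finset (Fin n)) :=
    (univ : Finset (Finset (Fin n) × Finset (Fin n))).filter
        (fun RC => RC.1.Nonempty ∧ RC.1 ≠ univ) with hF
  have key : ∀ O : Finset (NonEdge n d), ¬ Saturated O →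
      ∃ y ∈ (univ : Finset (V n d)), ∃ x ∈ (univ : Finset (V n d)), ∃ i ∈ (univ : Finset (Fin d)),
        ∃ j ∈ (univ : Finset (Fin d)), ∃ RC ∈ F, Good y x i j RC ∧ NoCross O y x i j RC.1 RC.2 := by
    intro O hO
    by_contra hcon
    apply hO
    apply sat_of
    intro y x i j R C hij hk hR hyR hyC hno
    apply hcon
    refine ⟨y, mem_univ _, x, mem_univ _, i, mem_univ _, j, mem_univ _, (R, C), ?_, ⟨hij, hk, hyR, hyC⟩, hno⟩
    rw [hF, mem_filter]
    refine ⟨mem_univ _, hR, ?_⟩
    intro h
    apply hyR
    simp only at h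
    rw [h]
    exact mem_univ _
  have hcn : Fintype.card (V n d) = n ^ d := by simp
  calc Pr p (fun O : Finset (NonEdge n d) => ¬ Saturated O)
      ≤ Pr p (fun O => ∃ y ∈ (univ : Finset (V n d)), ∃ x ∈ (univ : Finset (V n d)),
        ∃ i ∈ (univ : Finset (Fin d)),
        ∃ j ∈ (univ : Finset (Fin d)), ∃ RC ∈ F, Good y x i j RC ∧ NoCross O y x i j RC.1 RC.2) :=
        Pr_mono h0 h1 key
    _ ≤ ∑ y ∈ (univ : Finset (V n d)), Pr p (fun O => ∃ x ∈ (univ : Finset (V n d)),
        ∃ i ∈ (univ : Finset (Fin d)),
        ∃ j ∈ (univ : Finset (Fin d)), ∃ RC ∈ F, Good y x i j RC ∧ NoCross O y x i j RC.1 RC.2) :=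
        Pr_bUnion_le h0 h1 _ _
    _ ≤ ∑ y ∈ (univ : Finset (V n d)), ((n : ℝ) ^ d * (d * (d * (8 * n * Real.exp (-(p * n / 2)))))) := by
        apply sum_le_sum
        intro y _
        calc _ ≤ ∑ x ∈ (univ : Finset (V n d)), Pr p (fun O => ∃ i ∈ (univ : Finset (Fin d)),
              ∃ j ∈ (univ : Finset (Fin d)), ∃ RC ∈ F, Good y x i j RC ∧ NoCross O y x i j RC.1 RC.2) :=
              Pr_bUnion_le h0 h1 _ _
          _ ≤ ∑ x ∈ (univ : Finset (V n d)), (d * (d * (8 * n * Real.exp (-(p * n / 2))))) := by
              apply sum_le_sum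
              intro x _
              calc _ ≤ ∑ i ∈ (univ : Finset (Fin d)), Pr p (fun O =>
                    ∃ j ∈ (univ : Finset (Fin d)), ∃ RC ∈ F, Good y x i j RC ∧
                    NoCross O y x i j RC.1 RC.2) := Pr_bUnion_le h0 h1 _ _
                _ ≤ ∑ i ∈ (univ : Finset (Fin d)), (d * (8 * n * Real.exp (-(p * n / 2)))) := by
                    apply sum_le_sum
                    intro i _
                    calc _ ≤ ∑ j ∈ (univ : Finset (Fin d)), Pr p (fun O => ∃ RC ∈ F,
                          Good y x i j RC ∧ NoCross O y x i j RC.1 RC.2) := Pr_bUnion_le h0 h1 _ _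
                      _ ≤ ∑ j ∈ (univ : Finset (Fin d)), (8 * n * Real.exp (-(p * n / 2))) := by
                          apply sum_le_sum
                          intro j _
                          calc _ ≤ ∑ RC ∈ F, Pr p (fun O =>
                                Good y x i j RC ∧ NoCross O y x i j RC.1 RC.2) := Pr_bUnion_le h0 h1 _ _
                            _ ≤ ∑ RC ∈ F, Real.exp (-(p * ((RC.1.card * (n - RC.2.card) +
                                (n - RC.1.card) * RC.2.card : ℕ) : ℝ))) := by
                                apply sum_le_sum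
                                intro RC _
                                by_cases hg : Good y x i j RC
                                · refine le_trans (Pr_mono h0 h1 (fun O hO => hO.2)) ?_
                                  exact noCross_prob h0 h1 y x i j RC.1 RC.2 hg.1 hg.2.1 hg.2.2.1 hg.2.2.2
                                · rw [Pr_false p (fun O hO => hg hO.1)]
                                  exact (Real.exp_pos _).le
                            _ ≤ _ := sum_cuts h0 hx
                      _ = _ := by simp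
                _ = _ := by simp
          _ = _ := by rw [sum_const, card_univ, hcn]; simp
    _ = _ := by rw [sum_const, card_univ, hcn]; simp

theorem upper {n d : ℕ} (hd : 1 ≤ d) (hn : 4 * d + 2 ≤ n) {p : ℝ}
    (hp : (4 * d + 6) * Real.log n / n ≤ p) (h1 : p ≤ 1) : 1 / 2 ≤ prob n d p Saturated := by
  have hn1 : 1 ≤ n := by omega
  have hn0 : (0 : ℝ) < n := by exact_mod_cast hn1
  have hnd : 4 * (d : ℝ) + 2 ≤ n := by exact_mod_cast hn
  have hd0 : (1 : ℝ) ≤ d := by exact_mod_cast hd
  have hlog : 0 ≤ Real.log n := Real.log_natCast_nonneg n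
  have h0 : 0 ≤ p := le_trans (by positivity) hp
  have hx : Real.exp (-(p * n / 2)) ≤ 1 / (n : ℝ) ^ (2 * d + 3) := by
    have e1 : (2 * (d : ℝ) + 3) * Real.log n ≤ p * n / 2 := by
      rw [div_le_iff₀ hn0] at hp
      linarith
    calc Real.exp (-(p * n / 2)) ≤ Real.exp (-((2 * (d : ℝ) + 3) * Real.log n)) :=
          Real.exp_le_exp.2 (by linarith)
      _ = 1 / (n : ℝ) ^ (2 * d + 3) := by
        rw [Real.exp_neg, one_div]
        congr 1
        have : (2 * (d : ℝ) + 3) * Real.log n = ((2 * d + 3 : ℕ) : ℝ) * Real.log n := by push_cast; ring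
        rw [this, Real.exp_nat_mul, Real.exp_log hn0]
  have hn2 : (2 : ℝ) ≤ n := by linarith
  have hx2 : 2 * n * Real.exp (-(p * n / 2)) ≤ 1 := by
    have e2 : (n : ℝ) ^ 2 ≤ (n : ℝ) ^ (2 * d + 3) := pow_le_pow_right₀ (by linarith) (by omega)
    calc 2 * n * Real.exp (-(p * n / 2)) ≤ 2 * n * (1 / (n : ℝ) ^ (2 * d + 3)) :=
          mul_le_mul_of_nonneg_left hx (by positivity)
      _ ≤ 2 * n * (1 / (n : ℝ) ^ 2) := by
          apply mul_le_mul_of_nonneg_left _ (by positivity)
          exact one_div_le_one_div_of_le (by positivity) e2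
      _ = 2 / n := by field_simp
      _ ≤ 1 := by rw [div_le_one hn0]; exact hn2
  have hmain := not_sat (n := n) (d := d) h0 h1 hx2
  rw [Pr_not] at hmain
  rw [prob_eq]
  have hfin : (n : ℝ) ^ d * ((n : ℝ) ^ d * (d * (d * (8 * n * Real.exp (-(p * n / 2)))))) ≤ 1 / 2 := by
    calc (n : ℝ) ^ d * ((n : ℝ) ^ d * (d * (d * (8 * n * Real.exp (-(p * n / 2))))))
        = (8 * d ^ 2 * (n : ℝ) ^ (2 * d + 1)) * Real.exp (-(p * n / 2)) := by ring
      _ ≤ (8 * d ^ 2 * (n : ℝ) ^ (2 * d + 1)) * (1 / (n : ℝ) ^ (2 * d + 3)) :=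
          mul_le_mul_of_nonneg_left hx (by positivity)
      _ = 8 * d ^ 2 / (n : ℝ) ^ 2 := by
          have : (n : ℝ) ^ (2 * d + 3) = (n : ℝ) ^ (2 * d + 1) * (n : ℝ) ^ 2 := by ring
          rw [this]
          field_simp
      _ ≤ 1 / 2 := by
          rw [div_le_div_iff₀ (by positivity) (by norm_num)]
          nlinarith
  linarith

end Pool.Agent.H500R3.Ham
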