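import Pool.Agent.H500R3.Ham.Up

/-! Witnesses for occupied pairs. -/

set_option autoImplicit false

namespace Pool.Agent.H500R3.Ham
open Finset Classical Pool.Agent.Helper91.BP

variable {n d : ℕ}

/-- connected sets of the Hamming graph -/
def ConnSet (S : Finset (V n d)) : Prop :=
  S.Nonempty ∧ ∀ T ⊆ S, T.Nonempty → T ≠ S → ∃ u ∈ T, ∃ w ∈ S, w ∉ T ∧ hammingDist u w = 1

theorem ConnSet.union {S1 S2 : Finset (V n d)} (h1 : ConnSet S1) (h2 : ConnSet S2) {z : V n d}
    (hz1 : z ∈ S1) (hz2 : z ∈ S2) : ConnSet (S1 ∪ S2) := by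
  refine ⟨⟨z, mem_union_left _ hz1⟩, ?_⟩
  intro T hT hTn hTne
  have key : ∀ S, ConnSet S → S ⊆ S1 ∪ S2 → (T ∩ S).Nonempty → T ∩ S ≠ S →
      ∃ u ∈ T, ∃ w ∈ S1 ∪ S2, w ∉ T ∧ hammingDist u w = 1 := by
    intro S hS hSS hn hne
    obtain ⟨u, hu, w, hw, hwT, huw⟩ := hS.2 (T ∩ S) inter_subset_right hn hne
    refine ⟨u, (mem_inter.1 hu).1, w, hSS hw, ?_, huw⟩
    intro hcon
    exact hwT (mem_inter.2 ⟨hcon, hw⟩)
  by_cases a1 : (T ∩ S1).Nonempty ∧ T ∩ S1 ≠ S1
  · exact key S1 h1 subset_union_left a1.1 a1.2
  by_cases a2 : (T ∩ S2).Nonempty ∧ T ∩ S2 ≠ S2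
  · exact key S2 h2 subset_union_right a2.1 a2.2
  exfalso
  have b1 : z ∈ T → S1 ⊆ T := by
    intro hz
    by_contra hcon
    apply a1
    refine ⟨⟨z, mem_inter.2 ⟨hz, hz1⟩⟩, ?_⟩
    intro h
    exact hcon (inter_eq_right.1 h)
  have b2 : z ∈ T → S2 ⊆ T := by
    intro hz
    by_contra hcon
    apply a2
    refine ⟨⟨z, mem_inter.2 ⟨hz, hz2⟩⟩, ?_⟩
    intro h
    exact hcon (inter_eq_right.1 h)
  by_cases hz : z ∈ T
  · apply hTne
    apply Subset.antisymm hT
    exact union_subset (b1 hz) (b2 hz)
  · obtain ⟨u, hu⟩ := hTn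
    rcases mem_union.1 (hT hu) with h | h
    · apply a1
      refine ⟨⟨u, mem_inter.2 ⟨hu, h⟩⟩, ?_⟩
      intro h3
      apply hz
      have : z ∈ T ∩ S1 := by rw [h3]; exact hz1
      exact (mem_inter.1 this).1
    · apply a2
      refine ⟨⟨u, mem_inter.2 ⟨hu, h⟩⟩, ?_⟩
      intro h3
      apply hz
      have : z ∈ T ∩ S2 := by rw [h3]; exact hz2
      exact (mem_inter.1 this).1

theorem connSet_pair {x y : V n d} (h : hammingDist x y = 1) : ConnSet (insert x (insert y ∅)) := by
  refine ⟨⟨x, by simp⟩, ?_⟩
  intro T hT hTn hTne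
  by_cases hx : x ∈ T
  · refine ⟨x, hx, y, by simp, ?_, h⟩
    intro hy
    apply hTne
    apply Subset.antisymm hT
    intro w hw
    rw [mem_insert, mem_insert] at hw
    rcases hw with rfl | rfl | hw
    · exact hx
    · exact hy
    · simp at hw
  · obtain ⟨u, hu⟩ := hTn
    have huy : u = y := by
      have := hT hu
      rw [mem_insert, mem_insert] at this
      rcases this with rfl | rfl | h4
      · exact absurd hu hx
      · rfl
      · simp at h4
    subst huy
    refine ⟨u, hu, x, by simp, hx, ?_⟩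
    rw [hammingDist_comm]; exact h

/-- a connected set has at least `dist + 1` points -/
theorem ConnSet.card_ge {S : Finset (V n d)} (h : ConnSet S) {x y : V n d} (hx : x ∈ S) (hy : y ∈ S) :
    hammingDist x y + 1 ≤ S.card := by
  have key : ∀ i, i ≤ hammingDist x y → i + 1 ≤ (S.filter (fun v => hammingDist x v ≤ i)).card := by
    intro i
    induction i with
    | zero =>
      intro _
      apply card_pos.2
      exact ⟨x, mem_filter.2 ⟨hx, by simp⟩⟩
    | succ i ih =>
      intro hi
      have h1 := ih (by omega)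
      obtain ⟨u, hu, w, hw, hwT, huw⟩ := h.2 (S.filter (fun v => hammingDist x v ≤ i))
        (filter_subset _ _) ⟨x, mem_filter.2 ⟨hx, by simp⟩⟩ (by
          intro h2
          have : y ∈ S.filter (fun v => hammingDist x v ≤ i) := by rw [h2]; exact hy
          have := (mem_filter.1 this).2
          omega)
      have hlt : (S.filter (fun v => hammingDist x v ≤ i)).card <
          (S.filter (fun v => hammingDist x v ≤ i + 1)).card := by
        apply card_lt_card
        rw [ssubset_iff_of_subset]
        · refine ⟨w, ?_, hwT⟩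
          rw [mem_filter]
          refine ⟨hw, ?_⟩
          have h3 := (mem_filter.1 hu).2
          have h4 := hammingDist_triangle x u w
          omega
        · intro v hv
          rw [mem_filter] at hv ⊢
          exact ⟨hv.1, by omega⟩
      omega
  have h1 := key _ le_rfl
  exact le_trans h1 (card_le_card (filter_subset _ _))

/-- neighbours in the Hamming graph -/
noncomputable def nbh (u : V n d) : Finset (V n d) := univ.filter (fun w => hammingDist u w = 1)

theorem card_nbh (u : V n d) : (nbh u).card ≤ d * n := by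
  have : nbh u ⊆ (univ : Finset (Fin d × Fin n)).image (fun ia => Function.update u ia.1 ia.2) := by
    intro w hw
    unfold nbh at hw
    rw [mem_filter] at hw
    have h := hw.2
    unfold hammingDist at h
    rw [card_eq_one] at h
    obtain ⟨i, hi⟩ := h
    rw [mem_image]
    refine ⟨(i, w i), mem_univ _, ?_⟩
    funext k
    by_cases hk : k = i
    · subst hk; simp
    · rw [Function.update_of_ne hk]
      have : k ∉ (univ.filter (fun l => u l ≠ w l)) := by rw [hi]; simpa using hk
      rw [mem_filter] at this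
      simpa using this
  refine le_trans (card_le_card this) (le_trans card_image_le ?_)
  rw [card_univ, Fintype.card_prod, Fintype.card_fin, Fintype.card_fin]

/-- sets built by adding neighbours -/
noncomputable def G (n d : ℕ) : ℕ → Finset (Finset (V n d))
  | 0 => univ.image (fun v => {v})
  | (k + 1) => (G n d k).biUnion (fun T => (T.biUnion nbh).image (fun w => insert w T))

theorem card_of_mem_G {k : ℕ} : ∀ {S : Finset (V n d)}, S ∈ G n d k → S.card ≤ k + 1 := by
  induction k with
  | zero =>
    intro S hS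
    unfold G at hS
    rw [mem_image] at hS
    obtain ⟨v, _, rfl⟩ := hS
    simp
  | succ k ih =>
    intro S hS
    unfold G at hS
    rw [mem_biUnion] at hS
    obtain ⟨T, hT, hS⟩ := hS
    rw [mem_image] at hS
    obtain ⟨w, _, rfl⟩ := hS
    have := ih hT
    have := card_insert_le w T
    omega

theorem card_G (k : ℕ) : (G n d k).card ≤ n ^ d * ((k + 1) * (d * n)) ^ k := by
  induction k with
  | zero =>
    unfold G
    refine le_trans card_image_le ?_
    simp
  | succ k ih =>
    unfold G
    calc ((G n d k).biUnion (fun T => (T.biUnion nbh).image (fun w => insert w T))).card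
        ≤ ∑ T ∈ G n d k, ((T.biUnion nbh).image (fun w => insert w T)).card := card_biUnion_le
      _ ≤ ∑ T ∈ G n d k, (k + 1) * (d * n) := by
          apply sum_le_sum
          intro T hT
          calc ((T.biUnion nbh).image (fun w => insert w T)).card ≤ (T.biUnion nbh).card := card_image_le
            _ ≤ ∑ u ∈ T, (nbh u).card := card_biUnion_le
            _ ≤ ∑ u ∈ T, d * n := sum_le_sum (fun u _ => card_nbh u)
            _ = T.card * (d * n) := by rw [sum_const, smul_eq_mul]
            _ ≤ (k + 1) * (d * n) := Nat.mul_le_mul_right _ (card_of_mem_G hT)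
      _ = (G n d k).card * ((k + 1) * (d * n)) := by rw [sum_const, smul_eq_mul]
      _ ≤ (n ^ d * ((k + 1) * (d * n)) ^ k) * ((k + 1) * (d * n)) := Nat.mul_le_mul_right _ ih
      _ ≤ (n ^ d * ((k + 1 + 1) * (d * n)) ^ k) * ((k + 1 + 1) * (d * n)) := by
          apply Nat.mul_le_mul
          · apply Nat.mul_le_mul_left
            apply Nat.pow_le_pow_left
            apply Nat.mul_le_mul_right
            omega
          · apply Nat.mul_le_mul_right
            omega
      _ = n ^ d * ((k + 1 + 1) * (d * n)) ^ (k + 1) := by ring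

theorem ConnSet.mem_G {S : Finset (V n d)} (h : ConnSet S) {k : ℕ} (hk : S.card = k + 1) :
    S ∈ G n d k := by
  have key : ∀ i, i ≤ k → ∃ T ⊆ S, T ∈ G n d i ∧ T.card = i + 1 := by
    intro i
    induction i with
    | zero =>
      intro _
      obtain ⟨v, hv⟩ := h.1
      refine ⟨{v}, by simpa using hv, ?_, by simp⟩
      unfold G
      exact mem_image_of_mem _ (mem_univ _)
    | succ i ih =>
      intro hi
      obtain ⟨T, hTS, hTG, hTc⟩ := ih (by omega)
      obtain ⟨u, hu, w, hw, hwT, huw⟩ := h.2 T hTS (card_pos.1 (by omega)) (by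
        intro h2
        rw [h2] at hTc
        omega)
      refine ⟨insert w T, ?_, ?_, ?_⟩
      · intro v hv
        rw [mem_insert] at hv
        rcases hv with rfl | hv
        · exact hw
        · exact hTS hv
      · unfold G
        rw [mem_biUnion]
        refine ⟨T, hTG, ?_⟩
        rw [mem_image]
        refine ⟨w, ?_, rfl⟩
        rw [mem_biUnion]
        refine ⟨u, hu, ?_⟩
        unfold nbh
        exact mem_filter.2 ⟨mem_univ _, huw⟩
      · rw [card_insert_of_notMem hwT, hTc]
  obtain ⟨T, hTS, hTG, hTc⟩ := key k le_rfl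
  have : T = S := eq_of_subset_of_card_le hTS (by omega)
  rw [← this]; exact hTG

/-- a choice of intermediate points -/
theorem exists_apex (O : Finset (NonEdge n d)) : ∃ Z : Sym2 (V n d) → V n d, ∀ (t : ℕ) (x y : V n d),
    Occ O (t + 1) x y → ¬ Occ O t x y → Occ O t x (Z s(x, y)) ∧ Occ O t (Z s(x, y)) y := by
  have key : ∀ e : Sym2 (V n d), ∃ z : V n d, ∀ (t : ℕ) (x y : V n d), e = s(x, y) →
      Occ O (t + 1) x y → ¬ Occ O t x y → Occ O t x z ∧ Occ O t z y := by
    intro e
    induction e using Sym2.ind with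
    | _ a b =>
      by_cases h : ∃ t, Occ O (t + 1) a b ∧ ¬ Occ O t a b
      · obtain ⟨t0, h1, h2⟩ := h
        have h1' := h1
        unfold Occ at h1
        rcases h1 with h1 | ⟨_, z, hz1, hz2⟩
        · exact absurd h1 h2
        refine ⟨z, ?_⟩
        intro t x y hxy h3 h4
        rw [Sym2.eq_iff] at hxy
        have hab : Occ O (t + 1) a b ∧ ¬ Occ O t a b := by
          rcases hxy with ⟨rfl, rfl⟩ | ⟨rfl, rfl⟩
          · exact ⟨h3, h4⟩
          · exact ⟨h3.symm, fun h5 => h4 h5.symm⟩
        have ht : t = t0 := by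
          rcases lt_trichotomy t t0 with h5 | h5 | h5
          · exact absurd (hab.1.mono (by omega)) h2
          · exact h5
          · exact absurd (h1'.mono (by omega)) hab.2
        subst ht
        rcases hxy with ⟨rfl, rfl⟩ | ⟨rfl, rfl⟩
        · exact ⟨hz1, hz2⟩
        · exact ⟨hz2.symm, hz1.symm⟩
      · refine ⟨a, ?_⟩
        intro t x y hxy h3 h4
        exfalso
        apply h
        rw [Sym2.eq_iff] at hxy
        rcases hxy with ⟨rfl, rfl⟩ | ⟨rfl, rfl⟩
        · exact ⟨t, h3, h4⟩
        · exact ⟨t, h3.symm, fun h5 => h4 h5.symm⟩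
  choose Z hZ using key
  exact ⟨Z, fun t x y h1 h2 => hZ s(x, y) t x y rfl h1 h2⟩

/-- witness for an occupied pair -/
def Wit (O : Finset (NonEdge n d)) (Z : Sym2 (V n d) → V n d) (x y : V n d)
    (F : Finset (NonEdge n d)) (S : Finset (V n d)) : Prop :=
  S = insert x (insert y (F.image (fun e => Z e.1))) ∧ F ⊆ O ∧ ConnSet S ∧
    ∀ e ∈ F, ∀ v ∈ (e.1 : Sym2 (V n d)), v ∈ S

theorem witness (O : Finset (NonEdge n d)) (Z : Sym2 (V n d) → V n d)
    (hZ : ∀ (t : ℕ) (x y : V n d), Occ O (t + 1) x y → ¬ Occ O t x y →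
      Occ O t x (Z s(x, y)) ∧ Occ O t (Z s(x, y)) y) {K : ℕ} (hK : 2 ≤ K) :
    ∀ (t : ℕ) (x y : V n d), Occ O t x y → (∃ F S, Wit O Z x y F S ∧ S.card ≤ K) ∨
      (∃ x' y' F S, Wit O Z x' y' F S ∧ K < S.card ∧ S.card ≤ 2 * K) := by
  intro t
  induction t with
  | zero =>
    intro x y h
    left
    refine ⟨∅, insert x (insert y ∅), ⟨by simp, empty_subset _, connSet_pair h, by simp⟩, ?_⟩
    have h1 := card_insert_le x (insert y (∅ : Finset (V n d)))
    have h2 := card_insert_le y (∅ : Finset (V n d))
    rw [card_empty] at h2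
    omega
  | succ t ih =>
    intro x y h
    by_cases h0 : Occ O t x y
    · exact ih x y h0
    obtain ⟨hz1, hz2⟩ := hZ t x y h h0
    have hop : IsOpen O x y := by
      unfold Occ at h
      rcases h with h | h
      · exact absurd h h0
      · exact h.1
    obtain ⟨e0, he0, he0'⟩ := hop
    rcases ih _ _ hz1 with ⟨F1, S1, h1, hc1⟩ | h1
    · rcases ih _ _ hz2 with ⟨F2, S2, h2, hc2⟩ | h2
      · have hS : S1 ∪ S2 = insert x (insert y ((insert e0 (F1 ∪ F2)).image (fun e => Z e.1))) := by
          rw [h1.1, h2.1, image_insert, image_union, he0']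
          ext v
          simp only [mem_union, mem_insert]
          tauto
        have hzS1 : Z s(x, y) ∈ S1 := by rw [h1.1]; simp
        have hzS2 : Z s(x, y) ∈ S2 := by rw [h2.1]; simp
        have hW : Wit O Z x y (insert e0 (F1 ∪ F2)) (S1 ∪ S2) := by
          refine ⟨hS, ?_, h1.2.2.1.union h2.2.2.1 hzS1 hzS2, ?_⟩
          · intro e he
            rw [mem_insert, mem_union] at he
            rcases he with rfl | he | he
            · exact he0
            · exact h1.2.1 he
            · exact h2.2.1 he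
          · intro e he v hv
            rw [mem_insert, mem_union] at he
            rcases he with rfl | he | he
            · rw [he0', Sym2.mem_iff] at hv
              rw [mem_union]
              rcases hv with rfl | rfl
              · left; rw [h1.1]; simp
              · right; rw [h2.1]; simp
            · exact mem_union_left _ (h1.2.2.2 e he v hv)
            · exact mem_union_right _ (h2.2.2.2 e he v hv)
        have hcard := card_union_le S1 S2
        by_cases hc : (S1 ∪ S2).card ≤ K
        · exact Or.inl ⟨_, _, hW, hc⟩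
        · exact Or.inr ⟨x, y, _, _, hW, by omega, by omega⟩
      · exact Or.inr h2
    · exact Or.inr h1

/-- the non-edges inside `S` -/
noncomputable def ins (S : Finset (V n d)) : Finset (NonEdge n d) :=
  univ.filter (fun e => ∀ v ∈ (e.1 : Sym2 (V n d)), v ∈ S)

theorem card_ins (S : Finset (V n d)) : (ins S).card ≤ S.card ^ 2 := by
  have h1 : (ins S).card = ((ins S).image Subtype.val).card :=
    (card_image_of_injective _ Subtype.val_injective).symm
  have h2 : (ins S).image Subtype.val ⊆ S.sym2 := by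
    intro e he
    rw [mem_image] at he
    obtain ⟨f, hf, rfl⟩ := he
    unfold ins at hf
    rw [mem_filter] at hf
    rw [mem_sym2_iff]
    exact hf.2
  have h3 := card_le_card h2
  rw [card_sym2] at h3
  have h4 : (S.card + 1).choose 2 ≤ S.card ^ 2 := by
    rw [Nat.choose_two_right]
    rcases Nat.eq_zero_or_pos S.card with h | h
    · rw [h]; simp
    · have : (S.card + 1) * (S.card + 1 - 1) ≤ 2 * S.card ^ 2 := by
        have : S.card + 1 - 1 = S.card := by omega
        rw [this]
        nlinarith
      omega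
  omega

theorem Wit.count {O : Finset (NonEdge n d)} {Z : Sym2 (V n d) → V n d} {x y : V n d}
    {F : Finset (NonEdge n d)} {S : Finset (V n d)} (h : Wit O Z x y F S) :
    S.card ≤ (O ∩ ins S).card + 2 := by
  have h1 : F ⊆ O ∩ ins S := by
    intro e he
    rw [mem_inter]
    refine ⟨h.2.1 he, ?_⟩
    unfold ins
    exact mem_filter.2 ⟨mem_univ _, h.2.2.2 e he⟩
  have h2 := card_le_card h1
  have h3 : S.card ≤ F.card + 2 := by
    rw [h.1]
    have a1 := card_insert_le x (insert y (F.image (fun e => Z e.1)))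
    have a2 := card_insert_le y (F.image (fun e => Z e.1))
    have a3 : (F.image (fun e => Z e.1)).card ≤ F.card := card_image_le
    omega
  omega

theorem Pr_sub {W : Type*} [Fintype W] [DecidableEq W] {p : ℝ} (D : Finset W) :
    Pr p (fun A => D ⊆ A) = p ^ D.card := by
  have h := sum_prod (V := W) p (fun _ => 1) (fun v => if v ∈ D then 0 else 1)
  have h1 : Pr p (fun A => D ⊆ A) = ∑ A : Finset W, wt p A * ((∏ v ∈ A, (1 : ℝ)) *
      (∏ v ∈ Aᶜ, (if v ∈ D then (0 : ℝ) else 1))) := by
    unfold Pr
    apply Finset.sum_congr rfl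
    intro A _
    rw [Finset.prod_const_one, one_mul]
    by_cases hD : D ⊆ A
    · rw [if_pos hD]
      have : ∏ v ∈ Aᶜ, (if v ∈ D then (0 : ℝ) else 1) = 1 := by
        apply Finset.prod_eq_one
        intro v hv
        rw [if_neg]
        intro h
        exact (Finset.mem_compl.1 hv) (hD h)
      rw [this, mul_one]
    · rw [if_neg hD]
      obtain ⟨v, hv1, hv2⟩ := Finset.not_subset.1 hD
      have : ∏ v ∈ Aᶜ, (if v ∈ D then (0 : ℝ) else 1) = 0 := by
        apply Finset.prod_eq_zero (i := v) (Finset.mem_compl.2 hv2)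
        rw [if_pos hv1]
      rw [this, mul_zero]
  rw [h1, h]
  have h2 : ∀ v : W, p * 1 + (1 - p) * (if v ∈ D then (0 : ℝ) else 1) = if v ∈ D then p else 1 := by
    intro v
    split_ifs <;> ring
  simp_rw [h2]
  rw [Finset.prod_ite_mem, Finset.univ_inter, Finset.prod_const]

theorem many_open_prob {p : ℝ} (h0 : 0 ≤ p) (h1 : p ≤ 1) (S : Finset (V n d)) {k : ℕ}
    (hk : S.card = k + 1) :
    Pr p (fun O : Finset (NonEdge n d) => k - 1 ≤ (O ∩ ins S).card) ≤ 2 ^ ((k + 1) ^ 2) * p ^ (k - 1) := by
  calc Pr p (fun O : Finset (NonEdge n d) => k - 1 ≤ (O ∩ ins S).card)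
      ≤ Pr p (fun O => ∃ F ∈ (ins S).powersetCard (k - 1), F ⊆ O) := by
        apply Pr_mono h0 h1
        intro O hO
        obtain ⟨F, hF, hFc⟩ := exists_subset_card_eq hO
        refine ⟨F, ?_, fun e he => (mem_inter.1 (hF he)).1⟩
        rw [mem_powersetCard]
        exact ⟨fun e he => (mem_inter.1 (hF he)).2, hFc⟩
    _ ≤ ∑ F ∈ (ins S).powersetCard (k - 1), Pr p (fun O => F ⊆ O) := Pr_bUnion_le h0 h1 _ _
    _ = ∑ F ∈ (ins S).powersetCard (k - 1), p ^ (k - 1) := by
        apply sum_congr rfl
        intro F hF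
        rw [mem_powersetCard] at hF
        rw [Pr_sub, hF.2]
    _ = (((ins S).powersetCard (k - 1)).card : ℝ) * p ^ (k - 1) := by rw [sum_const, nsmul_eq_mul]
    _ ≤ 2 ^ ((k + 1) ^ 2) * p ^ (k - 1) := by
        apply mul_le_mul_of_nonneg_right _ (pow_nonneg h0 _)
        have h2 : ((ins S).powersetCard (k - 1)).card ≤ 2 ^ ((k + 1) ^ 2) := by
          rw [card_powersetCard]
          refine le_trans (Nat.choose_le_two_pow _ _) ?_
          apply Nat.pow_le_pow_right (by norm_num)
          have := card_ins S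
          rwa [hk] at this
        exact_mod_cast h2

end Pool.Agent.H500R3.Ham
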